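import Pool.Agent.H37.CPX.Targets

/-!
# cpx board, MED: the median
-/

set_option autoImplicit false

namespace Pool.Agent.H11.CPX

open Finset Pool.Agent.H37.CPX

theorem pf_MED : S_MED := by
  classical
  intro α A u
  rcases A.eq_empty_or_nonempty with rfl | hA
  · exact ⟨0, by simp, by simp⟩
  let V := A.image u
  have hV : V.Nonempty := hA.image u
  let T := V.filter (fun t => 2 * (A.filter (fun x => t < u x)).card ≤ A.card)
  have hT : T.Nonempty := by
    refine ⟨V.max' hV, mem_filter.2 ⟨V.max'_mem hV, ?_⟩⟩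
    have h1 : A.filter (fun x => V.max' hV < u x) = ∅ := by
      rw [filter_eq_empty_iff]
      intro x hx h
      exact absurd (V.le_max' (u x) (mem_image_of_mem u hx)) (not_le.2 h)
    rw [h1]
    simp
  refine ⟨T.min' hT, (mem_filter.1 (T.min'_mem hT)).2, ?_⟩
  by_contra hcon
  push Not at hcon
  let A' := A.filter (fun x => ¬ T.min' hT ≤ u x)
  have hcard := card_filter_add_card_filter_not (s := A) (fun x => T.min' hT ≤ u x)
  have hA' : A'.Nonempty := by
    rw [← card_pos]
    change 0 < (A.filter (fun x => ¬ T.min' hT ≤ u x)).card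
    omega
  obtain ⟨x0, hx0, hmax⟩ := A'.exists_max_image u hA'
  have hx0' := mem_filter.1 hx0
  have h2 : A.filter (fun x => u x0 < u x) = A.filter (fun x => T.min' hT ≤ u x) := by
    ext x
    simp only [mem_filter]
    constructor
    · rintro ⟨hx, h⟩
      refine ⟨hx, ?_⟩
      by_contra h'
      exact absurd (hmax x (mem_filter.2 ⟨hx, h'⟩)) (not_le.2 h)
    · rintro ⟨hx, h⟩
      exact ⟨hx, lt_of_lt_of_le (not_le.1 hx0'.2) h⟩
  have h3 : u x0 ∈ T := by
    refine mem_filter.2 ⟨mem_image_of_mem u hx0'.1, ?_⟩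
    rw [h2]
    omega
  exact hx0'.2 (T.min'_le _ h3)

end Pool.Agent.H11.CPX
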